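import Pool.Agent.H77R2.Cls
import Pool.Agent.W407.IA.Autos

/-!
# The associated Lie ring of `IA₃` is not a free Lie ring modulo quadratic relations

* `BurnLie.AssocLie G` (file `H77R2/AssocLie.lean`) is the associated Lie ring
  `E₀^*(G) = ⨁_{k ≥ 1} Γ_k G / Γ_{k+1} G`; its degree one part `Γ_1 G / Γ_2 G` is
  `BurnLie.Grd G 0`, embedded by `BurnLie.ofL 0`.
* `FreeLieOn V` is the free Lie ring `L[V]` on an abelian group `V` in degree one.
* `canon G : L[V] → E₀^*(G)` is the natural homomorphism, `V = Γ_1 G / Γ_2 G`.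
* `result`: for `G = IA₃` the kernel of `canon G` is not generated, as a Lie ideal, by its
  degree two part.

The proof: let `K : x₁ ↦ x₀ x₁ x₀⁻¹`, `M : x₂ ↦ [x₀, x₁] x₂` and `M' : x₂ ↦ x₂ [x₀, x₁]` (all other
generators fixed).  Then `[[K, M], M'] = 1` in `IA₃`, but the corresponding element of degree three
of `L[V]` is not in the ideal generated by the quadratic relations.
-/

namespace Pool.Agent.Results.MP_df4ecf_al.IA3NotQuadratic

open BurnLie Pool.Agent.W407.IA
open scoped commutatorElement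

/-- `IA_n`: the group of automorphisms of the free group `F_n` which induce the identity on the
abelianization of `F_n`. -/
def IA (n : ℕ) : Subgroup (MulAut (FreeGroup (Fin n))) where
  carrier := {φ | ∀ w, Abelianization.of (φ w) = Abelianization.of w}
  mul_mem' := fun {φ ψ} hφ hψ w => by
    change Abelianization.of (φ (ψ w)) = _
    rw [hφ, hψ]
  one_mem' := fun _ => rfl
  inv_mem' := fun {φ} hφ w => by
    have h := hφ (φ⁻¹ w)
    rw [MulAut.apply_inv_self] at h
    exact h.symm

section FreeLie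

variable (V : Type) [AddCommGroup V]

/-- The ideal of the free Lie ring on the underlying set of `V` generated by the elements
`[a + b] - [a] - [b]`, for `a, b` in `V`. -/
noncomputable def linIdeal : LieIdeal ℤ (FreeLieAlgebra ℤ V) :=
  LieSubmodule.lieSpan ℤ (FreeLieAlgebra ℤ V)
    {z | ∃ a b : V, z = FreeLieAlgebra.of ℤ (a + b) - FreeLieAlgebra.of ℤ a
      - FreeLieAlgebra.of ℤ b}

/-- The free Lie ring `L[V]` on the abelian group `V` in degree one. -/
abbrev FreeLieOn : Type := FreeLieAlgebra ℤ V ⧸ linIdeal V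

variable {V}

/-- The inclusion `V → L[V]` of the degree one part. -/
noncomputable def inc (v : V) : FreeLieOn V := LieSubmodule.Quotient.mk (FreeLieAlgebra.of ℤ v)

variable (V)

/-- The degree two part `L_2[V]` of `L[V]`: the additive subgroup generated by the brackets of
elements of `V`. -/
noncomputable def degTwo : AddSubgroup (FreeLieOn V) :=
  AddSubgroup.closure {z | ∃ a b : V, z = ⁅inc a, inc b⁆}

variable {V}

/-- The homomorphism `L[V] → L` extending an additive map from `V` to a Lie ring `L`. -/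
noncomputable def extend {L : Type} [LieRing L] (f : V →+ L) : FreeLieOn V →ₗ⁅ℤ⁆ L :=
  { Submodule.liftQ (linIdeal V).toSubmodule
      (FreeLieAlgebra.lift ℤ (fun v => f v) : FreeLieAlgebra ℤ V →ₗ⁅ℤ⁆ L).toLinearMap (by
      have h : linIdeal V ≤ (FreeLieAlgebra.lift ℤ (fun v => f v) :
          FreeLieAlgebra ℤ V →ₗ⁅ℤ⁆ L).ker := by
        refine LieSubmodule.lieSpan_le.2 ?_
        rintro _ ⟨a, b, rfl⟩
        refine LieHom.mem_ker.2 ?_
        rw [map_sub, map_sub, FreeLieAlgebra.lift_of_apply, FreeLieAlgebra.lift_of_apply,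
          FreeLieAlgebra.lift_of_apply, map_add]
        abel
      intro z hz
      exact LieHom.mem_ker.1 (h hz)) with
    map_lie' := by
      intro y z
      obtain ⟨y, rfl⟩ := LieSubmodule.Quotient.surjective_mk' _ y
      obtain ⟨z, rfl⟩ := LieSubmodule.Quotient.surjective_mk' _ z
      exact LieHom.map_lie (FreeLieAlgebra.lift ℤ (fun v => f v)) y z }

theorem extend_inc {L : Type} [LieRing L] (f : V →+ L) (v : V) : extend f (inc v) = f v :=
  FreeLieAlgebra.lift_of_apply (R := ℤ) (fun v => f v) v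

end FreeLie

/-- The natural homomorphism `L[V] → E₀^*(G)`, `V = Γ_1 G / Γ_2 G`, which is the identity on
`V`. -/
noncomputable def canon (G : Type) [Group G] : FreeLieOn (Grd G 0) →ₗ⁅ℤ⁆ AssocLie G :=
  extend (ofL 0)

/-- `E₀^*(G)` is a free Lie algebra modulo quadratic relations: the kernel of the natural
homomorphism `L[V] → E₀^*(G)` is generated, as a Lie ideal, by its degree two part. -/
def IsQuadratic (G : Type) [Group G] : Prop :=
  (canon G).ker = LieSubmodule.lieSpan ℤ (FreeLieOn (Grd G 0))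
    {z | z ∈ (canon G).ker ∧ z ∈ degTwo (Grd G 0)}

/-! ### The proof -/

abbrev G3 : Type := IA 3

theorem isIA (g : G3) : IsIA (g : MulAut F) := g.2

noncomputable def aH : G3 →* Multiplicative ℤ :=
  MonoidHom.mk' (fun g => Multiplicative.ofAdd (fa (g : MulAut F)))
    (fun g h => by
      change Multiplicative.ofAdd (fa ((g : MulAut F) * (h : MulAut F))) = _
      rw [fa_mul (isIA g) (isIA h)]; rfl)

noncomputable def dH : G3 →* Multiplicative ℤ :=
  MonoidHom.mk' (fun g => Multiplicative.ofAdd (fd (g : MulAut F)))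
    (fun g h => by
      change Multiplicative.ofAdd (fd ((g : MulAut F) * (h : MulAut F))) = _
      rw [fd_mul (isIA g) (isIA h)]; rfl)

noncomputable def mH : G3 →* Multiplicative ℤ :=
  MonoidHom.mk' (fun g => Multiplicative.ofAdd (fm (g : MulAut F)))
    (fun g h => by
      change Multiplicative.ofAdd (fm ((g : MulAut F) * (h : MulAut F))) = _
      rw [fm_mul (isIA g) (isIA h)]; rfl)

theorem hom_lcs_one (f : G3 →* Multiplicative ℤ) {g : G3} (hg : g ∈ lcs G3 1) : f g = 1 := by
  have h1 : lcs G3 1 ≤ f.ker := by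
    rw [lcs, Subgroup.lowerCentralSeries_succ, Subgroup.commutator_le]
    intro x _ y _
    rw [MonoidHom.mem_ker, map_commutatorElement, commutatorElement_eq_one_iff_mul_comm]
    exact mul_comm _ _
  exact MonoidHom.mem_ker.1 (h1 hg)

theorem a_zero {g : G3} (hg : g ∈ lcs G3 1) : fa (g : MulAut F) = 0 :=
  congrArg Multiplicative.toAdd (hom_lcs_one aH hg)
theorem d_zero {g : G3} (hg : g ∈ lcs G3 1) : fd (g : MulAut F) = 0 :=
  congrArg Multiplicative.toAdd (hom_lcs_one dH hg)
theorem m_zero {g : G3} (hg : g ∈ lcs G3 1) : fm (g : MulAut F) = 0 :=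
  congrArg Multiplicative.toAdd (hom_lcs_one mH hg)

theorem h_mul_left {g h : G3} (hg : g ∈ lcs G3 1) :
    fh ((g * h : G3) : MulAut F) = fh (g : MulAut F) + fh (h : MulAut F) := by
  change fh ((g : MulAut F) * (h : MulAut F)) = _
  rw [fh_mul (isIA g) (isIA h), a_zero hg, m_zero hg]
  ring

/-- The invariant of a commutator. -/
theorem h_comm (g h : G3) : fh ((⁅g, h⁆ : G3) : MulAut F) =
    (fa (g : MulAut F) - fd (g : MulAut F)) * fm (h : MulAut F)
      - fm (g : MulAut F) * (fa (h : MulAut F) - fd (h : MulAut F)) := by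
  have h0 : ⁅g, h⁆ ∈ lcs G3 1 := lcs_comm_mem (m := 0) (n := 0) (Subgroup.mem_top g)
    (Subgroup.mem_top h)
  have h1 : g * h = ⁅g, h⁆ * (h * g) := by rw [commutatorElement_def]; group
  have h2 := congrArg (fun z : G3 => fh (z : MulAut F)) h1
  change fh ((g * h : G3) : MulAut F) = fh ((⁅g, h⁆ * (h * g) : G3) : MulAut F) at h2
  rw [h_mul_left h0] at h2
  change fh ((g : MulAut F) * (h : MulAut F)) = _ + fh ((h : MulAut F) * (g : MulAut F)) at h2
  rw [fh_mul (isIA g) (isIA h), fh_mul (isIA h) (isIA g)] at h2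
  linarith

/-- The invariant `h` on `Γ_2`. -/
noncomputable def hHom : lcs G3 1 →* Multiplicative ℤ :=
  MonoidHom.mk' (fun g => Multiplicative.ofAdd (fh ((g : G3) : MulAut F)))
    (fun g h => by
      change Multiplicative.ofAdd (fh (((g : G3) * (h : G3) : G3) : MulAut F)) = _
      rw [h_mul_left g.2]; rfl)

theorem hHom_lcs_two : (lcs G3 2).subgroupOf (lcs G3 1) ≤ hHom.ker := by
  have key : ∀ g ∈ lcs G3 2, g ∈ lcs G3 1 ∧ fh ((g : G3) : MulAut F) = 0 := by
    intro g hg
    rw [lcs, Subgroup.mem_lowerCentralSeries_succ_iff] at hg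
    have one0 : fh ((1 : G3) : MulAut F) = 0 := by
      have := h_mul_left (g := 1) (h := 1) (one_mem _)
      rw [mul_one] at this
      linarith
    induction hg using Subgroup.closure_induction with
    | mem w hw =>
      obtain ⟨x, hx, y, -, rfl⟩ := hw
      have hx1 : x ∈ lcs G3 1 := hx
      refine ⟨lcs_anti (Nat.le_succ 1) (lcs_comm_mem (m := 1) (n := 0) hx1
        (Subgroup.mem_top y)), ?_⟩
      rw [h_comm, a_zero hx1, d_zero hx1, m_zero hx1]
      ring
    | one => exact ⟨one_mem _, one0⟩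
    | mul w w' _ _ h h' =>
      refine ⟨mul_mem h.1 h'.1, ?_⟩
      rw [h_mul_left h.1, h.2, h'.2, add_zero]
    | inv w _ h =>
      refine ⟨inv_mem h.1, ?_⟩
      have := h_mul_left (g := w) (h := w⁻¹) h.1
      rw [mul_inv_cancel, one0, h.2] at this
      linarith
  intro g hg
  rw [Subgroup.mem_subgroupOf] at hg
  rw [MonoidHom.mem_ker]
  change Multiplicative.ofAdd (fh ((g : G3) : MulAut F)) = 1
  rw [(key g hg).2]
  rfl

/-- The additive map `Γ_2 / Γ_3 → ℤ` induced by `h`. -/
noncomputable def lam : Grd G3 1 →+ ℤ :=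
  AddMonoidHom.mk' (fun z => Multiplicative.toAdd
    (QuotientGroup.lift _ hHom hHom_lcs_two (Additive.toMul z)))
    (fun y z => congrArg Multiplicative.toAdd
      (map_mul (QuotientGroup.lift _ hHom hHom_lcs_two) (Additive.toMul y) (Additive.toMul z)))

theorem lam_mk (g : lcs G3 1) : lam (grMk 1 g) = fh ((g : G3) : MulAut F) := rfl

/-- An additive map `Γ_1 / Γ_2 → ℤ` from a homomorphism `G → ℤ`. -/
noncomputable def degOne (f : G3 →* Multiplicative ℤ) : Grd G3 0 →+ ℤ :=
  AddMonoidHom.mk' (fun z => Multiplicative.toAdd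
    (QuotientGroup.lift ((lcs G3 1).subgroupOf (lcs G3 0)) (f.comp (lcs G3 0).subtype)
      (fun g hg => hom_lcs_one f (Subgroup.mem_subgroupOf.1 hg)) (Additive.toMul z)))
    (fun y z => congrArg Multiplicative.toAdd
      (map_mul (QuotientGroup.lift ((lcs G3 1).subgroupOf (lcs G3 0))
        (f.comp (lcs G3 0).subtype)
        (fun g hg => hom_lcs_one f (Subgroup.mem_subgroupOf.1 hg)))
        (Additive.toMul y) (Additive.toMul z)))

theorem degOne_mk (f : G3 →* Multiplicative ℤ) (g : lcs G3 0) :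
    degOne f (grMk 0 g) = Multiplicative.toAdd (f (g : G3)) := rfl

attribute [local instance 100] LieRing.ofAssociativeRing

abbrev T : Type := Matrix (Fin 4) (Fin 4) ℤ

def K0 : T := !![0,0,0,0; 0,0,0,0; 0,0,0,1; 0,0,0,0]
def M0 : T := !![0,1,0,0; 0,0,1,0; 0,0,0,0; 0,0,0,0]

theorem bracket_ne : ⁅⁅K0, M0⁆, M0⁆ ≠ 0 := by
  rw [Ring.lie_def, Ring.lie_def]
  intro h
  have h1 := congrFun (congrFun h 0) 3
  revert h1
  decide

/-- The additive map `V → T`. -/
noncomputable def phi0 : Grd G3 0 →+ T :=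
  AddMonoidHom.mk' (fun z => (degOne aH z - degOne dH z) • K0 + degOne mH z • M0)
    (fun y z => by
      simp only [map_add]
      module)

noncomputable def phi : FreeLieOn (Grd G3 0) →ₗ⁅ℤ⁆ T := extend phi0

theorem phi_inc (g : lcs G3 0) : phi (inc (grMk 0 g)) =
    (fa ((g : G3) : MulAut F) - fd ((g : G3) : MulAut F)) • K0
      + fm ((g : G3) : MulAut F) • M0 := by
  unfold phi
  rw [extend_inc]
  rfl

theorem canon_inc (g : lcs G3 0) : canon G3 (inc (grMk 0 g)) = mkL 0 g := by
  unfold canon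
  rw [extend_inc]
  rfl

/-- On the degree two part `phi` factors through `canon`. -/
theorem phi_degTwo (z : FreeLieOn (Grd G3 0)) (hz : z ∈ degTwo (Grd G3 0)) :
    phi z = lam (compL 1 (canon G3 z)) • ⁅K0, M0⁆ := by
  unfold degTwo at hz
  induction hz using AddSubgroup.closure_induction with
  | mem w hw =>
    obtain ⟨a, b, rfl⟩ := hw
    obtain ⟨g, rfl⟩ := grMk_surj 0 a
    obtain ⟨h, rfl⟩ := grMk_surj 0 b
    rw [LieHom.map_lie, LieHom.map_lie, phi_inc, phi_inc, canon_inc, canon_inc]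
    have h1 : ⁅(mkL 0 g : AssocLie G3), mkL 0 h⁆ = mkL 1 (brElt 0 0 g h) := lieHom_mkL 0 0 g h
    rw [h1, compL_mkL_same, lam_mk]
    have h2 : fh (((brElt 0 0 g h : lcs G3 1) : G3) : MulAut F) =
      (fa ((g : G3) : MulAut F) - fd ((g : G3) : MulAut F)) * fm ((h : G3) : MulAut F)
      - fm ((g : G3) : MulAut F) * (fa ((h : G3) : MulAut F) - fd ((h : G3) : MulAut F)) :=
      h_comm _ _
    rw [h2]
    generalize fa ((g : G3) : MulAut F) - fd ((g : G3) : MulAut F) = p
    generalize fa ((h : G3) : MulAut F) - fd ((h : G3) : MulAut F) = q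
    generalize fm ((g : G3) : MulAut F) = r
    generalize fm ((h : G3) : MulAut F) = s
    simp only [lie_add, add_lie, smul_lie, lie_smul, lie_self, smul_zero, add_zero, zero_add]
    rw [← lie_skew K0 M0]
    module
  | zero => simp
  | add y z _ _ hy hz => rw [map_add, hy, hz, map_add, map_add, map_add, add_smul]
  | neg y _ hy => rw [map_neg, hy, map_neg, map_neg, map_neg, neg_smul]

/-- The elements of `IA₃`. -/
def gK : G3 := ⟨autK, isIA_K⟩
def gM : G3 := ⟨autM, isIA_M⟩
def gM' : G3 := ⟨autM', isIA_M'⟩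

theorem gRel : ⁅⁅gK, gM⁆, gM'⁆ = 1 := Subtype.ext relation

/-- **Theorem.** For `n = 3` the kernel of the natural homomorphism `L[V] → E₀^*(IA_n)` is not
generated, as a Lie ideal, by its degree two part. -/
theorem result : ¬ IsQuadratic (IA 3) := by
  intro hq
  let k : lcs G3 0 := ⟨gK, Subgroup.mem_top _⟩
  let m : lcs G3 0 := ⟨gM, Subgroup.mem_top _⟩
  let m' : lcs G3 0 := ⟨gM', Subgroup.mem_top _⟩
  let z : FreeLieOn (Grd G3 0) := ⁅⁅inc (grMk 0 k), inc (grMk 0 m)⁆, inc (grMk 0 m')⁆
  -- `z` is in the kernel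
  have hz : z ∈ (canon G3).ker := by
    refine LieHom.mem_ker.2 ?_
    change canon G3 ⁅⁅inc (grMk 0 k), inc (grMk 0 m)⁆, inc (grMk 0 m')⁆ = 0
    rw [LieHom.map_lie, LieHom.map_lie, canon_inc, canon_inc, canon_inc]
    have h1 : ⁅(mkL 0 k : AssocLie G3), mkL 0 m⁆ = mkL 1 (brElt 0 0 k m) := lieHom_mkL 0 0 k m
    have h2 : ⁅(mkL 1 (brElt 0 0 k m) : AssocLie G3), mkL 0 m'⁆ =
      mkL 2 (brElt 1 0 (brElt 0 0 k m) m') := lieHom_mkL 1 0 _ m'
    rw [h1, h2, ← mkL_one 2]
    exact mkL_congr rfl gRel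
  -- `phi` vanishes on the ideal generated by the quadratic relations
  have hle : LieSubmodule.lieSpan ℤ (FreeLieOn (Grd G3 0))
      {z | z ∈ (canon G3).ker ∧ z ∈ degTwo (Grd G3 0)} ≤ phi.ker := by
    refine LieSubmodule.lieSpan_le.2 ?_
    rintro y ⟨hy, hy2⟩
    refine LieHom.mem_ker.2 ?_
    rw [phi_degTwo y hy2, LieHom.mem_ker.1 hy, map_zero, map_zero, zero_smul]
  have h0 : phi z = 0 := by
    refine LieHom.mem_ker.1 (hle ?_)
    have h1 := hz
    change (canon G3).ker = _ at hq
    rw [hq] at h1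
    exact h1
  have e1 : phi z = ⁅⁅K0, M0⁆, M0⁆ := by
    change phi ⁅⁅inc (grMk 0 k), inc (grMk 0 m)⁆, inc (grMk 0 m')⁆ = _
    rw [LieHom.map_lie, LieHom.map_lie, phi_inc, phi_inc, phi_inc]
    have ek : (fa ((k : G3) : MulAut F) - fd ((k : G3) : MulAut F)) = 1 ∧
        fm ((k : G3) : MulAut F) = 0 := by
      change fa autK - fd autK = 1 ∧ fm autK = 0
      rw [fa_K, fd_K, fm_K]; simp
    have em : (fa ((m : G3) : MulAut F) - fd ((m : G3) : MulAut F)) = 0 ∧
        fm ((m : G3) : MulAut F) = 1 := by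
      change fa autM - fd autM = 0 ∧ fm autM = 1
      rw [fa_M, fd_M, fm_M]; simp
    have em' : (fa ((m' : G3) : MulAut F) - fd ((m' : G3) : MulAut F)) = 0 ∧
        fm ((m' : G3) : MulAut F) = 1 := by
      change fa autM' - fd autM' = 0 ∧ fm autM' = 1
      rw [fa_M', fd_M', fm_M']; simp
    rw [ek.1, ek.2, em.1, em.2, em'.1, em'.2]
    simp only [one_smul, zero_smul, add_zero, zero_add]
  rw [e1] at h0
  exact bracket_ne h0

end Pool.Agent.Results.MP_df4ecf_al.IA3NotQuadratic
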